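import Pool.Agent.H30.LT.Targets

/-!
# Row ABS of the board `al_modules`: the step, abstract form
-/

set_option autoImplicit false

namespace Pool.Agent.H34.LT.ABS

open MvPolynomial SC Pool.Agent.H27.LV Pool.Agent.H30.AV Pool.Agent.H30.AW Pool.Agent.H30.AX
  Cardinal Pool.Agent.H30.LT

attribute [local instance] MvPolynomial.algebraMvPolynomial

private lemma rkI_top {R 𝔸 τ : Type} [CommRing R] [IsDomain R] [CommRing 𝔸] [IsDomain 𝔸]
    [Algebra R 𝔸] (hRCO : T_RCO) (V : Submodule R 𝔸) (hinj : Function.Injective (algebraMap R 𝔸))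
    (hfin : Module.rank R V < ℵ₀) : rkI (τ := τ) V ⊤ = Module.finrank R V := by
  have h1 : cof τ V ⊓ (⊤ : Ideal (MvPolynomial τ 𝔸)).restrictScalars (MvPolynomial τ R) =
      cof τ V := by
    rw [Submodule.restrictScalars_top, inf_top_eq]
  unfold rkI
  rw [h1]
  unfold Module.finrank
  rw [hRCO R 𝔸 τ V hinj hfin]

private lemma rkI_mono {R 𝔸 τ : Type} [CommRing R] [IsDomain R] [CommRing 𝔸] [IsDomain 𝔸]
    [Algebra R 𝔸] (hRCO : T_RCO) (V : Submodule R 𝔸) (hinj : Function.Injective (algebraMap R 𝔸))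
    (hfin : Module.rank R V < ℵ₀) (I J : Ideal (MvPolynomial τ 𝔸)) (hIJ : I ≤ J) :
    rkI V I ≤ rkI V J := by
  have h1 : cof τ V ⊓ I.restrictScalars (MvPolynomial τ R) ≤
      cof τ V ⊓ J.restrictScalars (MvPolynomial τ R) :=
    inf_le_inf_left _ (fun x hx => hIJ hx)
  have h2 : Module.rank (MvPolynomial τ R)
      ↥(cof τ V ⊓ J.restrictScalars (MvPolynomial τ R)) < ℵ₀ := by
    refine lt_of_le_of_lt (Submodule.rank_mono inf_le_left) ?_
    rw [hRCO R 𝔸 τ V hinj hfin]
    exact hfin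
  unfold rkI Module.finrank
  exact Cardinal.toNat_le_toNat (Submodule.rank_mono h1) h2

private lemma gauss (w : ℕ) : ∑ j ∈ Finset.range w, (j + 1) = w * (w + 1) / 2 := by
  have h : (∑ j ∈ Finset.range w, (j + 1)) * 2 = w * (w + 1) := by
    induction w with
    | zero => simp
    | succ w ih => rw [Finset.sum_range_succ, add_mul, ih]; ring
  omega

theorem pf_ABS (hRCO : T_RCO) (hLEV : T_LEV) (hXRO : T_XRO) : T_ABS := by
  intro R 𝔸 τ _ _ _ _ _ _ _ V p p' ω ω' hinj hfin hωp hωp' hω'p' hω'p hV w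
  set J : Ideal (MvPolynomial τ 𝔸) := Ideal.span {lin ω, lin ω'} with hJ
  set I : Ideal (MvPolynomial τ 𝔸) := Ideal.span {lin ω} with hI
  have hIJ : I ≤ J := by
    rw [hI, hJ]
    exact Ideal.span_mono (by simp)
  have hT : ∀ M, rkI (τ := τ) (V M) ⊤ = Module.finrank R (V M) := fun M =>
    rkI_top hRCO (V M) hinj (hfin M)
  have hJT : ∀ M, rkI (V M) J ≤ Module.finrank R (V M) := fun M => by
    rw [← hT M]
    exact rkI_mono hRCO (V M) hinj (hfin M) J ⊤ le_top
  have hIT : ∀ M, rkI (V M) I ≤ Module.finrank R (V M) := fun M => by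
    rw [← hT M]
    exact rkI_mono hRCO (V M) hinj (hfin M) I ⊤ le_top
  have hIJ' : ∀ M, rkI (V M) I ≤ rkI (V M) J := fun M =>
    rkI_mono hRCO (V M) hinj (hfin M) I J hIJ
  refine ⟨fun M => Module.finrank R (V M) - rkI (V M) J,
    fun M => Module.finrank R (V M) - rkI (V M) I, ?_, ?_, ?_, ?_⟩
  · intro M
    have key : ∀ v : ℕ, Module.finrank R (V M) ≤ rkI (V M) (J ^ v) +
        (∑ j ∈ Finset.range v, (j + 1)) * (Module.finrank R (V M) - rkI (V M) J) := by
      intro v
      induction v with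
      | zero =>
        rw [pow_zero, Ideal.one_eq_top, hT M]
        exact Nat.le_add_right _ _
      | succ v ih =>
        have h1 := hLEV R 𝔸 τ (V M) p p' ω ω' hinj (hfin M) hωp hωp' hω'p' hω'p v
        rw [← hJ, hT M] at h1
        have h2 : rkI (V M) (J ^ v) ≤ rkI (V M) (J ^ (v + 1)) +
            (v + 1) * (Module.finrank R (V M) - rkI (V M) J) := by
          obtain ⟨a, ha⟩ := Nat.exists_eq_add_of_le (hJT M)
          rw [ha, Nat.add_sub_cancel_left]
          rw [ha, mul_add] at h1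
          omega
        rw [Finset.sum_range_succ, add_mul]
        omega
    have h3 := key w
    rw [gauss] at h3
    exact h3
  · exact Nat.sub_le_sub_left (hIJ' 0) _
  · exact Nat.sub_le _ _
  · intro M
    obtain ⟨h1, h2⟩ := hXRO R 𝔸 τ (V M) (V (M + 1)) p p' ω ω' hinj (hfin M) (hfin (M + 1)) hωp
      hωp' hω'p' (hV M)
    rw [hT M, ← hI] at h1
    rw [hT M, ← hI, ← hJ] at h2
    have h3 := hJT (M + 1)
    have h4 := hIT M
    have h5 := hIT (M + 1)
    have h6 := hIJ' (M + 1)
    constructor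
    · change (Module.finrank R (V (M + 1)) - rkI (V (M + 1)) J) +
        (Module.finrank R (V M) - rkI (V M) I) ≤
        Module.finrank R (V (M + 1)) - rkI (V (M + 1)) I
      omega
    · change (Module.finrank R (V (M + 1)) - rkI (V (M + 1)) I) + Module.finrank R (V M) ≤
        Module.finrank R (V (M + 1))
      omega

end Pool.Agent.H34.LT.ABS
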