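import Pool.Agent.H30.LT.Targets
import Pool.Agent.H91.AW.NU2

/-!
# Row NM5 of the board `al_modules`: a function with the inequalities of the step is not zero in
small degrees
-/

set_option autoImplicit false

namespace Pool.Agent.H34.LT.NM5

open Pool.Agent.H27.LV Pool.Agent.H30.LT

theorem pf_NM5 (hGFN : T_GFN) (hTAI : T_TAI) (hLIM : T_LIM) : T_NM5 := by
  intro m r β q c e hm hr hβ hq he
  obtain ⟨w, z, z', hw, hz, hzz, hz', hA, hN⟩ := hLIM m r (β + 2) q c hm hr hβ hq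
  refine ⟨w, hw, ?_⟩
  intro h ρ x h1 h2 h3 h4 h5 h6
  have hex : ∃ N : ℕ, (m - 1) * q * w ≤ 2 * m * N := by
    refine ⟨(m - 1) * q * w, ?_⟩
    exact Nat.le_mul_of_pos_left _ (by omega)
  classical
  have hNs := Nat.find_spec hex
  have hNm : ∀ M < Nat.find hex, 2 * m * M < (m - 1) * q * w := fun M hM =>
    not_le.1 (Nat.find_min hex hM)
  set N := Nat.find hex with hNdef
  by_contra hcon
  push Not at hcon
  have hzero : ∀ M < N, h q M = 0 := by
    intro M hM
    by_contra h0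
    have := hcon M (Nat.pos_of_ne_zero h0)
    have := hNm M hM
    omega
  have hcard : ∀ M, Fintype.card (Mon (β + 2) M) = (β + 1 + M).choose (β + 1) := fun M =>
    Pool.Agent.H91.AW.NU2x.cardM (β + 1) M
  have hz1 : z < 1 := hzz.trans hz'
  obtain ⟨hsum, hlow, hup⟩ := hTAI h (β + 1) c e q N z z' hz hzz hz' he
    (fun M => by rw [← hcard]; exact h1 M) (fun M => by rw [← hcard]; exact h2 M) h3
  obtain ⟨-, hgf⟩ := hGFN h ρ x (w * (w + 1) / 2) z q hz hz1 hA hsum h3 h4 h5 h6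
  have hup' := hup hzero
  have hlim := hN N hNs
  set K : ℝ := 1 - ((w * (w + 1) / 2 : ℕ) : ℝ) * (1 - z) ^ 2 with hK
  have hK0 : 0 ≤ K := by
    rw [hK]
    linarith
  have he0 : (0 : ℝ) < e := by exact_mod_cast he
  have hz0' : 0 < z' := hz.trans hzz
  have hp1 : 0 < (1 - z) ^ (β + 2) := pow_pos (by linarith) _
  have hp2 : 0 < (1 - z') ^ (β + 2) := pow_pos (by linarith) _
  have hp3 : 0 < z' ^ c := pow_pos hz0' _
  have h7 : K ^ q * (z ^ c / (1 - z) ^ (β + 1 + 1) * e) ≤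
      (z / z') ^ N * (e / (z' ^ c * (1 - z') ^ (β + 1 + 1))) :=
    (mul_le_mul_of_nonneg_left hlow (pow_nonneg hK0 q)).trans (hgf.trans hup')
  have e2 : β + 1 + 1 = β + 2 := rfl
  rw [e2] at h7
  have h8 : K ^ q * (z * z') ^ c * (1 - z') ^ (β + 2) ≤ (z / z') ^ N * (1 - z) ^ (β + 2) := by
    have h9 := mul_le_mul_of_nonneg_right h7
      (le_of_lt (div_pos (mul_pos hp1 (mul_pos hp3 hp2)) he0))
    have e3 : K ^ q * (z ^ c / (1 - z) ^ (β + 2) * e) *
        ((1 - z) ^ (β + 2) * (z' ^ c * (1 - z') ^ (β + 2)) / e) =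
        K ^ q * (z * z') ^ c * (1 - z') ^ (β + 2) := by
      rw [mul_pow]
      field_simp
    have e4 : (z / z') ^ N * (e / (z' ^ c * (1 - z') ^ (β + 2))) *
        ((1 - z) ^ (β + 2) * (z' ^ c * (1 - z') ^ (β + 2)) / e) =
        (z / z') ^ N * (1 - z) ^ (β + 2) := by
      have h10 : (e : ℝ) / (z' ^ c * (1 - z') ^ (β + 2)) *
          ((1 - z) ^ (β + 2) * (z' ^ c * (1 - z') ^ (β + 2)) / e) = (1 - z) ^ (β + 2) := by
        field_simp
      rw [mul_assoc, h10]
    rw [e3, e4] at h9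
    exact h9
  exact absurd hlim (not_lt.2 h8)

end Pool.Agent.H34.LT.NM5
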